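import Pool.Agent.H14RC.Core

/-!
# Distance to the integers, and inequalities for the limit function `G`
-/

set_option autoImplicit false

namespace Pool.Agent.H27.FM

open Finset Pool.Agent.H14RC

/-- Distance to the nearest integer. -/
noncomputable def d (x : ℝ) : ℝ := |x - round x|

lemma d_nonneg (x : ℝ) : 0 ≤ d x := abs_nonneg _

lemma d_le_half (x : ℝ) : d x ≤ 1 / 2 := abs_sub_round x

lemma d_le (x : ℝ) (n : ℤ) : d x ≤ |x - n| := round_le x n

lemma d_add_int (x : ℝ) (n : ℤ) : d (x + n) = d x := by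
  apply le_antisymm
  · have := d_le (x + n) (round x + n)
    push_cast at this
    rw [show x + n - (round x + n) = x - round x by ring] at this
    exact this
  · have := d_le x (round (x + n) - n)
    push_cast at this
    rw [show x - (round (x + n) - (n : ℝ)) = x + n - round (x + n) by ring] at this
    exact this

lemma d_add (x y : ℝ) : d (x + y) ≤ d x + d y := by
  have h := d_le (x + y) (round x + round y)
  push_cast at h
  rw [show x + y - (round x + round y : ℝ) = (x - round x) + (y - round y) by ring] at h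
  exact h.trans (abs_add_le _ _)

lemma d_neg (x : ℝ) : d (-x) = d x := by
  have key : ∀ z : ℝ, d (-z) ≤ d z := by
    intro z
    have h := d_le (-z) (-round z)
    push_cast at h
    rw [show -z - -(round z : ℝ) = -(z - round z) by ring, abs_neg] at h
    exact h
  apply le_antisymm (key x)
  have := key (-x)
  rwa [neg_neg] at this

lemma d_of_le {x : ℝ} (h0 : 0 ≤ x) (h1 : x ≤ 1 / 2) : d x = x := by
  apply le_antisymm
  · have := d_le x 0
    simpa [abs_of_nonneg h0] using this
  · -- any integer is at distance at least `x`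
    unfold d
    rcases le_or_gt (round x) 0 with h | h
    · have h' : ((round x : ℤ) : ℝ) ≤ 0 := by exact_mod_cast h
      rw [le_abs]; left; linarith
    · have h' : (1 : ℝ) ≤ ((round x : ℤ) : ℝ) := by exact_mod_cast h
      rw [le_abs]; right; linarith

lemma d_of_ge {x : ℝ} (h0 : 1 / 2 ≤ x) (h1 : x ≤ 1) : d x = 1 - x := by
  have h := d_of_le (x := 1 - x) (by linarith) (by linarith)
  have e : d (1 - x) = d x := by
    have := d_add_int (-x) 1
    push_cast at this
    rw [show 1 - x = -x + 1 by ring, this, d_neg]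
  rw [← e, h]

lemma d_int (n : ℤ) : d n = 0 := by
  have h := d_le n n
  simp at h
  exact le_antisymm h (d_nonneg _)

lemma d_zero : d 0 = 0 := by simpa using d_int 0

lemma d_sum {ι : Type*} (s : Finset ι) (x : ι → ℝ) : d (∑ i ∈ s, x i) ≤ ∑ i ∈ s, d (x i) := by
  classical
  induction s using Finset.induction_on with
  | empty => simp [d_zero]
  | insert a s ha ih =>
    rw [sum_insert ha, sum_insert ha]
    exact (d_add _ _).trans (by linarith)

/-! ### The function `G` -/

lemma G_one_mid {x : ℝ} (h0 : 1 / 4 ≤ x) (h1 : x ≤ 3 / 4) : G x = 1 := by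
  apply le_antisymm (G_le_one (by linarith) (by linarith))
  have := w_le_G (x := x) (by linarith) (by linarith)
  rwa [min_eq_left (le_min (by linarith) (by linarith))] at this

lemma G_four {x : ℝ} (h0 : 0 ≤ x) (h1 : x ≤ 1 / 4) : 4 * x ≤ G x := by
  have := w_le_G (x := x) (by linarith) (by linarith)
  rwa [min_eq_left (by linarith : 4 * x ≤ 4 * (1 - x)), min_eq_right (by linarith)] at this

lemma G_d {x : ℝ} (h0 : 0 ≤ x) (h1 : x ≤ 1) : G (d x) = G x := by
  rcases le_total x (1 / 2) with h | h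
  · rw [d_of_le h0 h]
  · rw [d_of_ge h h1, G_symm]

lemma G_mono {x y : ℝ} (h0 : 0 ≤ x) (hxy : x ≤ y) (hy : y ≤ 1 / 2) : G x ≤ G y := by
  rcases eq_or_lt_of_le hxy with h | h
  · rw [h]
  · have h3 := G_conc3 h0 hxy hy (by norm_num : (1 : ℝ) / 2 ≤ 1)
    rw [G_one_mid (x := 1 / 2) (by norm_num) (by norm_num)] at h3
    have h4 := G_le_one h0 (by linarith : x ≤ 1)
    have h5 : (1 / 2 - x) * G x ≤ (1 / 2 - x) * G y := by nlinarith
    exact le_of_mul_le_mul_left h5 (by linarith)

lemma G_sub {x y : ℝ} (h0 : 0 ≤ x) (h1 : 0 ≤ y) (h2 : x + y ≤ 1) : G (x + y) ≤ G x + G y := by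
  rcases eq_or_lt_of_le (add_nonneg h0 h1) with h | h
  · have hx : x = 0 := by linarith
    have hy : y = 0 := by linarith
    subst hx; subst hy; simp [G_zero]
  · have e1 := G_conc3 (le_refl (0 : ℝ)) h0 (by linarith : x ≤ x + y) h2
    have e2 := G_conc3 (le_refl (0 : ℝ)) h1 (by linarith : y ≤ x + y) h2
    rw [G_zero] at e1 e2
    have : (x + y) * G (x + y) ≤ (x + y) * (G x + G y) := by nlinarith
    exact le_of_mul_le_mul_left this h

/-- `a k y ≥ e y log (1/y)`. -/
lemma a_log (k : ℕ) {y : ℝ} (hy : 0 < y) : Real.exp 1 * (y * Real.log (1 / y)) ≤ a k y := by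
  unfold a
  have hk : (0 : ℝ) < (k : ℝ) + 1 := by positivity
  have e1 : y ^ ((k : ℝ) / ((k : ℝ) + 1)) = y * Real.exp (Real.log (1 / y) / ((k : ℝ) + 1)) := by
    rw [Real.rpow_def_of_pos hy]
    conv_rhs => rw [← Real.exp_log hy, ← Real.exp_add]
    rw [Real.exp_log hy]
    congr 1
    rw [one_div, Real.log_inv]
    field_simp
    ring
  rw [e1]
  have e2 := Real.add_one_le_exp (Real.log (1 / y) / ((k : ℝ) + 1) - 1)
  have e3 : Real.exp (Real.log (1 / y) / ((k : ℝ) + 1)) =
      Real.exp 1 * Real.exp (Real.log (1 / y) / ((k : ℝ) + 1) - 1) := by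
    rw [← Real.exp_add]; congr 1; ring
  rw [e3]
  have e4 : Real.log (1 / y) / ((k : ℝ) + 1) ≤ Real.exp (Real.log (1 / y) / ((k : ℝ) + 1) - 1) := by
    linarith
  have e5 : Real.exp 1 * (y * Real.log (1 / y)) =
      ((k : ℝ) + 1) * (y * (Real.exp 1 * (Real.log (1 / y) / ((k : ℝ) + 1)))) := by
    field_simp
  rw [e5]
  have := Real.exp_pos 1
  gcongr

lemma G_log {y : ℝ} (hy : 0 < y) (hy1 : y ≤ 1 / 2) :
    Real.exp 1 * (y * Real.log (1 / y)) ≤ G y := by
  apply le_G
  · exact fun k => a_log k hy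
  · exact fun k => (a_log k hy).trans (a_mono k hy.le (by linarith))

lemma G_twentieth : (2 : ℝ) / 5 ≤ G (1 / 20) := by
  refine le_trans ?_ (G_log (y := 1 / 20) (by norm_num) (by norm_num))
  have h1 : (2.97 : ℝ) ≤ Real.log 20 := by
    have e : (20 : ℝ) = 2 ^ 4 * (5 / 4) := by norm_num
    rw [e, Real.log_mul (by norm_num) (by norm_num), Real.log_pow]
    have e1 := Real.log_two_gt_d9
    have e2 := Real.one_sub_inv_le_log_of_pos (x := 5 / 4) (by norm_num)
    push_cast
    norm_num at e2 ⊢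
    linarith
  have h2 := Real.exp_one_gt_d9
  rw [show (1 : ℝ) / (1 / 20) = 20 by norm_num]
  nlinarith

lemma G_eight {x : ℝ} (h0 : 0 ≤ x) (h1 : x ≤ 1 / 20) : 8 * x ≤ G x := by
  have e := G_conc3 (le_refl (0 : ℝ)) h0 h1 (by norm_num : (1 : ℝ) / 20 ≤ 1)
  rw [G_zero] at e
  have := G_twentieth
  nlinarith

/-- The entropy inequality for one value. -/
lemma G_ent {y s : ℝ} (hy : 0 ≤ y) (hys : y ≤ s) (hs0 : 0 < s) (hs : s ≤ 1 / 2) :
    y / s * G s + s * Real.negMulLog (y / s) ≤ G y := by
  rcases eq_or_lt_of_le hy with h | hy0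
  · subst h; simp [G_zero]
  have hρ : 1 ≤ s / y := by rwa [one_le_div hy0]
  have key : ∀ k : ℕ, y / s * G s + s * Real.negMulLog (y / s) ≤ a k y := by
    intro k
    have hk : (0 : ℝ) < (k : ℝ) + 1 := by positivity
    have hGs := G_le k hs0.le (by linarith : s ≤ 1)
    have hκ0 : 0 ≤ (k : ℝ) / ((k : ℝ) + 1) := by positivity
    have hκ1 : (k : ℝ) / ((k : ℝ) + 1) ≤ 1 := by rw [div_le_one hk]; linarith
    have e1 : y ^ ((k : ℝ) / ((k : ℝ) + 1)) =
        s ^ ((k : ℝ) / ((k : ℝ) + 1)) * (y / s) * (s / y) ^ (1 / ((k : ℝ) + 1)) := by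
      have e2 : (s / y) ^ (1 / ((k : ℝ) + 1)) =
          (s / y) * (s / y) ^ (-((k : ℝ) / ((k : ℝ) + 1))) := by
        have h := Real.rpow_add (show 0 < s / y by positivity) 1 (-((k : ℝ) / ((k : ℝ) + 1)))
        rw [Real.rpow_one] at h
        rw [← h]
        congr 1
        field_simp
        ring
      rw [e2, Real.rpow_neg (by positivity), Real.div_rpow hs0.le hy]
      have : 0 < s ^ ((k : ℝ) / ((k : ℝ) + 1)) := Real.rpow_pos_of_pos hs0 _
      have : 0 < y ^ ((k : ℝ) / ((k : ℝ) + 1)) := Real.rpow_pos_of_pos hy0 _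
      field_simp
    have e3 : 1 + Real.log (s / y) / ((k : ℝ) + 1) ≤ (s / y) ^ (1 / ((k : ℝ) + 1)) := by
      rw [Real.rpow_def_of_pos (by positivity)]
      have := Real.add_one_le_exp (Real.log (s / y) * (1 / ((k : ℝ) + 1)))
      have e : Real.log (s / y) * (1 / ((k : ℝ) + 1)) = Real.log (s / y) / ((k : ℝ) + 1) := by ring
      rw [e] at this ⊢
      linarith
    have e4 : s ≤ s ^ ((k : ℝ) / ((k : ℝ) + 1)) := by
      conv_lhs => rw [← Real.rpow_one s]
      exact Real.rpow_le_rpow_of_exponent_ge hs0 (by linarith) hκ1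
    have hlog : 0 ≤ Real.log (s / y) := Real.log_nonneg hρ
    have e5 : s * Real.negMulLog (y / s) = y * Real.log (s / y) := by
      unfold Real.negMulLog
      rw [show y / s = (s / y)⁻¹ by rw [inv_div], Real.log_inv, inv_div]
      field_simp
    rw [e5]
    unfold a at hGs ⊢
    rw [e1]
    set P := s ^ ((k : ℝ) / ((k : ℝ) + 1)) with hP
    have hP0 : 0 < P := Real.rpow_pos_of_pos hs0 _
    have e6 : ((k : ℝ) + 1) * (P * (y / s) * (1 + Real.log (s / y) / ((k : ℝ) + 1))) ≤
        ((k : ℝ) + 1) * (P * (y / s) * (s / y) ^ (1 / ((k : ℝ) + 1))) := by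
      gcongr
    have e7 : ((k : ℝ) + 1) * (P * (y / s) * (1 + Real.log (s / y) / ((k : ℝ) + 1))) =
        y / s * (((k : ℝ) + 1) * P) + y / s * P * Real.log (s / y) := by
      field_simp
    have e8 : y / s * G s ≤ y / s * (((k : ℝ) + 1) * P) := by gcongr
    have e9 : y * Real.log (s / y) ≤ y / s * P * Real.log (s / y) := by
      have : y ≤ y / s * P := by
        rw [div_mul_eq_mul_div, le_div_iff₀ hs0]
        gcongr
      gcongr
    linarith
  apply le_G key
  exact fun k => (key k).trans (a_mono k hy (by linarith))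

/-- Subadditivity of the periodic extension of `G`. -/
lemma GG_sub (x y : ℝ) : G (d (x + y)) ≤ G (d x) + G (d y) := by
  have h1 := d_nonneg x
  have h2 := d_nonneg y
  have h3 := d_le_half x
  have h4 := d_le_half y
  have h5 := d_add x y
  have h6 := G_nonneg h1 (by linarith : d x ≤ 1)
  have h7 := G_nonneg h2 (by linarith : d y ≤ 1)
  rcases le_total (d x + d y) (1 / 2) with h | h
  · exact (G_mono (d_nonneg _) h5 h).trans (G_sub h1 h2 (by linarith))
  · have h8 := G_le_one (d_nonneg (x + y)) (by linarith [d_le_half (x + y)])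
    rcases le_total (1 / 4) (d x) with h9 | h9
    · rw [G_one_mid h9 (by linarith)]; linarith
    · rw [G_one_mid (x := d y) (by linarith) (by linarith)]; linarith

end Pool.Agent.H27.FM
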