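import Pool.Agent.H27.FM.Op

/-!
# Case A: all points in `[1/4, 3/4]`
-/

set_option autoImplicit false

namespace Pool.Agent.H27.FM

open Finset Pool.Agent.H14RC

/-- The scaled penalty. -/
noncomputable def K (m c : ℕ) (u : ℝ) : ℝ := max 0 (max ((c : ℝ) - u) (u - ((m : ℝ) - c))) / 2

lemma kap_mid {m c : ℕ} (hm : 1 ≤ m) {x : ℝ} (h0 : 0 ≤ x) (h1 : x ≤ 1) :
    (m : ℝ) * kap m c x = K m c (m * x) := by
  have hm0 : (0 : ℝ) < m := by exact_mod_cast hm
  have e : (c : ℝ) / m - d x = max ((c : ℝ) / m - x) (x - (1 - (c : ℝ) / m)) := by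
    rcases le_total x (1 / 2) with h | h
    · rw [d_of_le h0 h, max_eq_left (by linarith)]
    · rw [d_of_ge h h1, max_eq_right (by linarith)]; ring
  unfold kap K
  rw [e, mul_div_assoc', mul_max_of_nonneg _ _ hm0.le, mul_max_of_nonneg _ _ hm0.le, mul_zero]
  congr 3
  · field_simp
  · field_simp

lemma K_jensen {m c : ℕ} (hc : (c : ℝ) ≤ m / 2) (l : ℤ) {A B U : ℝ} :
    ∃ s : ℝ, ∀ u, A ≤ u → u ≤ B →
      K m c u ≤ K m c U + s * (u - U) + (max 0 (B - ((l : ℝ) + 1)) + max 0 ((l : ℝ) - A)) := by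
  have q1 := le_max_left 0 (B - ((l : ℝ) + 1))
  have q2 := le_max_right 0 (B - ((l : ℝ) + 1))
  have q3 := le_max_left 0 ((l : ℝ) - A)
  have q4 := le_max_right 0 ((l : ℝ) - A)
  have w1 : 0 ≤ K m c U := by unfold K; positivity
  have w2 : ((c : ℝ) - U) / 2 ≤ K m c U := by
    unfold K
    have := (le_max_left ((c : ℝ) - U) (U - ((m : ℝ) - c))).trans
      (le_max_right 0 (max ((c : ℝ) - U) (U - ((m : ℝ) - c))))
    linarith
  have w3 : (U - ((m : ℝ) - c)) / 2 ≤ K m c U := by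
    unfold K
    have := (le_max_right ((c : ℝ) - U) (U - ((m : ℝ) - c))).trans
      (le_max_right 0 (max ((c : ℝ) - U) (U - ((m : ℝ) - c))))
    linarith
  have red : ∀ u z : ℝ, 0 ≤ z → (c : ℝ) - u ≤ 2 * z → u - ((m : ℝ) - c) ≤ 2 * z →
      K m c u ≤ z := by
    intro u z h1 h2 h3
    unfold K
    have := max_le (by linarith : (0 : ℝ) ≤ 2 * z) (max_le h2 h3)
    linarith
  rcases le_or_gt (l + 1) (c : ℤ) with h | h
  · have h' : (l : ℝ) + 1 ≤ c := by exact_mod_cast h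
    refine ⟨-1 / 2, fun u hA hB => red _ _ ?_ ?_ ?_⟩
    · rcases le_total u c with hu | hu <;> linarith
    · linarith
    · linarith
  · have h' : (c : ℝ) ≤ l := by
      have : (c : ℤ) ≤ l := by omega
      exact_mod_cast this
    rcases le_or_gt ((m : ℤ) - c) l with h3 | h3
    · have h3' : (m : ℝ) - c ≤ l := by exact_mod_cast h3
      refine ⟨1 / 2, fun u hA hB => red _ _ ?_ ?_ ?_⟩
      · rcases le_total u ((m : ℝ) - c) with hu | hu <;> linarith
      · linarith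
      · linarith
    · have h3' : (l : ℝ) + 1 ≤ (m : ℝ) - c := by
        have : l + 1 ≤ (m : ℤ) - c := by omega
        exact_mod_cast this
      refine ⟨0, fun u hA hB => red _ _ ?_ ?_ ?_⟩
      · linarith
      · linarith
      · linarith

/-- Case A, for any function `g` and any majorants `τ i` of `1 - κ(x i) + g(m x i)/m`. -/
lemma caseA_gen {m c : ℕ} (P : Par m c) {g : ℝ → ℝ} (hper : ∀ x (n : ℤ), g (x + n) = g x)
    (hsub : ∀ x y, g (x + y) ≤ g x + g y) (h0g : g 0 = 0) (hrc : RC m g) (x τ : Fin m → ℝ)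
    (A B : ℝ) (hA : 1 / 4 ≤ A) (hB : B ≤ 3 / 4) (hx : ∀ i, A ≤ x i ∧ x i ≤ B)
    (hτ : ∀ i, 1 - kap m c (x i) + g (m * x i) / m ≤ τ i) :
    1 - kap m c ((∑ i, x i) / m) + g (m * ((∑ i, x i) / m)) / m ≤
      (∑ i, τ i) / m + (B - A) := by
  have h600 := P.m600
  have hm0 : (0 : ℝ) < m := by linarith
  have hm1 : 1 ≤ m := by have := P.hm; omega
  set U : ℝ := ∑ i, x i with hU
  have hXU : (m : ℝ) * (U / m) = U := by field_simp
  have hlo : A * m ≤ U := by
    calc A * m = ∑ _i : Fin m, A := by simp [mul_comm]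
      _ ≤ U := sum_le_sum fun i _ => (hx i).1
  have hhi : U ≤ B * m := by
    calc U ≤ ∑ _i : Fin m, B := sum_le_sum fun i _ => (hx i).2
      _ = B * m := by simp [mul_comm]
  have hX0 : 0 ≤ U / m := by
    apply div_nonneg _ hm0.le
    have : 0 ≤ A * m := by positivity
    linarith
  have hX1 : U / m ≤ 1 := by
    rw [div_le_one hm0]
    nlinarith
  have hsum : (∑ i, (m : ℝ) * x i) = m * U := by rw [hU, mul_sum]
  have hmean : (∑ i, (m : ℝ) * x i) / m = U := by rw [hsum]; field_simp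
  obtain ⟨s, hs⟩ := K_jensen (m := m) (c := c) (by linarith [P.c2]) ⌊U⌋ (A := m * A) (B := m * B)
    (U := U)
  have hsl := slack hm1 g hper hsub h0g hrc (fun i => (m : ℝ) * x i) (m * A) (m * B)
      (fun i => ⟨mul_le_mul_of_nonneg_left (hx i).1 hm0.le,
        mul_le_mul_of_nonneg_left (hx i).2 hm0.le⟩) ⌊U⌋ (by rw [hmean]; exact Int.floor_le U)
      (by rw [hmean]; exact (Int.lt_floor_add_one U).le)
  rw [hmean] at hsl
  set Pen : ℝ := max 0 ((m : ℝ) * B - ((⌊U⌋ : ℝ) + 1)) + max 0 ((⌊U⌋ : ℝ) - m * A) with hPen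
  have hminmax : min ((m : ℝ) * B) ((⌊U⌋ : ℝ) + 1) - max ((m : ℝ) * A) (⌊U⌋ : ℝ) =
      m * (B - A) - Pen := by
    have e1 : min ((m : ℝ) * B) ((⌊U⌋ : ℝ) + 1) = m * B - max 0 ((m : ℝ) * B - ((⌊U⌋ : ℝ) + 1)) := by
      rcases le_total ((m : ℝ) * B) ((⌊U⌋ : ℝ) + 1) with h | h
      · rw [min_eq_left h, max_eq_left (by linarith)]; ring
      · rw [min_eq_right h, max_eq_right (by linarith)]; ring
    have e2 : max ((m : ℝ) * A) (⌊U⌋ : ℝ) = m * A + max 0 ((⌊U⌋ : ℝ) - m * A) := by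
      rcases le_total ((m : ℝ) * A) (⌊U⌋ : ℝ) with h | h
      · rw [max_eq_right h, max_eq_right (by linarith)]; ring
      · rw [max_eq_left h, max_eq_left (by linarith)]; ring
    rw [e1, e2, hPen]; ring
  rw [hminmax] at hsl
  -- the penalties
  have hK : ∑ i, (m : ℝ) * kap m c (x i) ≤ m * (m * kap m c (U / m)) + m * Pen := by
    have e1 : ∀ i, (m : ℝ) * kap m c (x i) ≤
        (m * kap m c (U / m)) + s * (m * x i - U) + Pen := by
      intro i
      rw [kap_mid hm1 (by linarith [(hx i).1]) (by linarith [(hx i).2]), kap_mid hm1 hX0 hX1, hXU]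
      exact hs _ (mul_le_mul_of_nonneg_left (hx i).1 hm0.le)
        (mul_le_mul_of_nonneg_left (hx i).2 hm0.le)
    refine (sum_le_sum fun i _ => e1 i).trans (le_of_eq ?_)
    have e2 : ∑ i : Fin m, s * ((m : ℝ) * x i - U) = 0 := by
      rw [← mul_sum, sum_sub_distrib, hsum]; simp
    rw [sum_add_distrib, sum_add_distrib, e2]
    simp
  have hT : (∑ i : Fin m, ((1 : ℝ) - kap m c (x i) + g (m * x i) / m)) ≤ ∑ i, τ i :=
    sum_le_sum fun i _ => hτ i
  rw [sum_add_distrib, sum_sub_distrib, ← sum_div] at hT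
  rw [← mul_sum] at hK
  simp only [sum_const, card_univ, Fintype.card_fin, nsmul_eq_mul, mul_one] at hT
  rw [hXU]
  set SK := ∑ i, kap m c (x i) with hSK
  set SG := ∑ i, g (m * x i) with hSG
  set ST := ∑ i, τ i with hST
  have hK' : SK ≤ m * kap m c (U / m) + Pen := by
    have : (m : ℝ) * SK ≤ m * (m * kap m c (U / m) + Pen) := by linarith
    exact le_of_mul_le_mul_left this hm0
  -- multiply the goal by `m`
  have goal : (m : ℝ) * (1 - kap m c (U / m)) + g U ≤ ST + m * (B - A) := by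
    linarith
  have e : 1 - kap m c (U / m) + g U / m = ((m : ℝ) * (1 - kap m c (U / m)) + g U) / m := by
    field_simp
  have e' : ST / m + (B - A) = (ST + m * (B - A)) / m := by field_simp
  rw [e, e']
  gcongr

lemma d_mid {x : ℝ} (h1 : 1 / 4 ≤ x) (h2 : x ≤ 3 / 4) : 1 / 4 ≤ d x := by
  rcases le_total x (1 / 2) with h | h
  · rw [d_of_le (by linarith) h]; exact h1
  · rw [d_of_ge h (by linarith)]; linarith

lemma caseA {m c : ℕ} (P : Par m c) {g : ℝ → ℝ} (hg : Good m c g) (x : Fin m → ℝ) (A B : ℝ)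
    (hA : 1 / 4 ≤ A) (hB : B ≤ 3 / 4) (hx : ∀ i, A ≤ x i ∧ x i ≤ B) :
    1 - kap m c ((∑ i, x i) / m) + g (m * ((∑ i, x i) / m)) / m ≤
      (∑ i, T m c g (x i)) / m + (B - A) := by
  refine caseA_gen P hg.per hg.sub ?_ hg.rc x _ A B hA hB hx fun i =>
    T_second (d_mid (by linarith [(hx i).1]) (by linarith [(hx i).2]))
  have := hg.small 0 (by rw [d_zero]; norm_num)
  rw [this, d_zero, G_zero]

end Pool.Agent.H27.FM
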