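import Pool.Agent.H27.FM.Basic

/-!
# The chord inequality (case B)
-/

set_option autoImplicit false

namespace Pool.Agent.H27.FM

open Finset Pool.Agent.H14RC

lemma caseB_both {α β X ε : ℝ} (hα : 0 ≤ α) (hβ : 0 ≤ β) (h1 : α ≤ X) (h2 : β ≤ 1 - X)
    (hX1 : 1 / 4 ≤ X) (hX2 : X ≤ 3 / 4) (hε : 0 < ε) (hε2 : ε ≤ 1 / 599)
    (ht : 6 / 5 * ε ≤ α + β) (ha : α ≤ 1 / 4) (hb : β ≤ 1 / 4) :
    (1 - (α + β)) * (α + β + ε) ≤ (1 - β - X) * G α + (X - α) * G β := by
  rcases le_total (1 / 20) (α + β) with h | h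
  · have e1 := G_four hα ha
    have e2 := G_four hβ hb
    have e3 : (1 - β - X) * (4 * α) ≤ (1 - β - X) * G α :=
      mul_le_mul_of_nonneg_left e1 (by linarith)
    have e4 : (X - α) * (4 * β) ≤ (X - α) * G β := mul_le_mul_of_nonneg_left e2 (by linarith)
    refine le_trans ?_ (add_le_add e3 e4)
    -- the difference is at least `t²`
    have e5 : 0 ≤ α * (1 - 4 * β) * (3 / 4 - X) :=
      mul_nonneg (mul_nonneg hα (by linarith)) (by linarith)
    have e6 : 0 ≤ β * (1 - 4 * α) * (X - 1 / 4) :=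
      mul_nonneg (mul_nonneg hβ (by linarith)) (by linarith)
    nlinarith [mul_nonneg hα hβ]
  · have e1 := G_eight hα (by linarith)
    have e2 := G_eight hβ (by linarith)
    have e3 : (1 - β - X) * (8 * α) ≤ (1 - β - X) * G α :=
      mul_le_mul_of_nonneg_left e1 (by linarith)
    have e4 : (X - α) * (8 * β) ≤ (X - α) * G β := mul_le_mul_of_nonneg_left e2 (by linarith)
    refine le_trans ?_ (add_le_add e3 e4)
    have e5 : 0 ≤ α * (3 / 4 - X) := mul_nonneg hα (by linarith)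
    have e6 : 0 ≤ β * (X - 1 / 4) := mul_nonneg hβ (by linarith)
    have e7 : α * β ≤ (α + β) ^ 2 / 4 := by nlinarith [sq_nonneg (α - β)]
    have e8 : (α + β) ^ 2 ≤ 1 / 20 * (α + β) := by nlinarith
    nlinarith [mul_nonneg hα hβ, mul_nonneg (add_nonneg hα hβ) hε.le]

lemma caseB_one {α β X ε : ℝ} (hα : 0 ≤ α) (h1 : α ≤ X) (h2 : β ≤ 1 - X)
    (hX1 : 1 / 4 + 2 * ε ≤ X) (hε : 0 < ε)
    (ha : α ≤ 1 / 4) (hb : 1 / 4 ≤ β) :
    (1 - (α + β)) * (α + β + ε) ≤ (1 - β - X) * G α + (X - α) * G β := by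
  rw [G_one_mid (x := β) hb (by linarith)]
  have e1 := G_four hα ha
  have e3 : (1 - β - X) * (4 * α) ≤ (1 - β - X) * G α :=
    mul_le_mul_of_nonneg_left e1 (by linarith)
  obtain ⟨s, hs⟩ : ∃ s, s = 1 - β - X := ⟨_, rfl⟩
  obtain ⟨w, hw⟩ : ∃ w, w = X - α := ⟨_, rfl⟩
  have hs0 : 0 ≤ s := by linarith
  have hw0 : 2 * ε ≤ w := by linarith
  have eα : α = X - w := by linarith
  have eβ : β = 1 - s - X := by linarith
  rw [← hs] at e3 ⊢
  rw [← hw]
  have key : (1 - (α + β)) * (α + β + ε) ≤ s * (4 * α) + w * 1 := by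
    rw [eα, eβ]
    have e4 : s * (1 + 8 * ε - 4 * w) ≤ s * (4 * (X - w)) := by
      apply mul_le_mul_of_nonneg_left _ hs0; linarith
    refine le_trans ?_ (add_le_add e4 le_rfl)
    -- remains `(s - w)² + 8 ε s - (s + w) ε ≥ 0`
    have e5 : 0 ≤ (s - w) ^ 2 + 7 * ε * s - w * ε := by
      rcases le_total w s with h | h
      · nlinarith [sq_nonneg (s - w), mul_nonneg hε.le (sub_nonneg.2 h), mul_nonneg hε.le hs0]
      · rcases le_total ε (w - s) with h' | h'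
        · nlinarith [mul_nonneg hε.le hs0]
        · have hs1 : ε ≤ s := by linarith
          nlinarith [sq_nonneg (s - w), mul_nonneg hε.le (sub_nonneg.2 hs1)]
    nlinarith
  linarith

lemma caseB {α β X ε : ℝ} (hα : 0 ≤ α) (hβ : 0 ≤ β) (h1 : α ≤ X) (h2 : β ≤ 1 - X)
    (hX1 : 1 / 4 + 2 * ε ≤ X) (hX2 : X ≤ 3 / 4 - 2 * ε) (hε : 0 < ε) (hε2 : ε ≤ 1 / 599)
    (ht : 6 / 5 * ε ≤ α + β) (hn : α < 1 / 4 ∨ β < 1 / 4) :
    (1 - (α + β)) * (α + β + ε) ≤ (1 - β - X) * G α + (X - α) * G β := by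
  rcases le_total α (1 / 4) with ha | ha <;> rcases le_total β (1 / 4) with hb | hb
  · exact caseB_both hα hβ h1 h2 (by linarith) (by linarith) hε hε2 ht ha hb
  · exact caseB_one hα h1 h2 hX1 hε ha hb
  · have := caseB_one (α := β) (β := α) (X := 1 - X) (ε := ε) hβ h2 (by linarith) (by linarith) hε
      hb ha
    have e1 : (1 - (β + α)) * (β + α + ε) = (1 - (α + β)) * (α + β + ε) := by ring
    rw [e1] at this
    linarith
  · rcases hn with h | h
    · exact absurd h (not_lt.2 ha)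
    · exact absurd h (not_lt.2 hb)

end Pool.Agent.H27.FM
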