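import Pool.Agent.H27.FM.Op

/-!
# Case C: the points span almost the whole interval
-/

set_option autoImplicit false

namespace Pool.Agent.H27.FM

open Finset Pool.Agent.H14RC

lemma nml {b u : ℝ} (hb : 0 ≤ b) (hbu : b ≤ u) (hu : u ≤ 1) :
    (1 - u) * Real.negMulLog b ≤ Real.negMulLog u := by
  have hb1 := Real.negMulLog_nonneg hb (hbu.trans hu)
  rcases eq_or_lt_of_le (hbu.trans hu) with h | h
  · have : u = 1 := by linarith
    subst this
    simp
  · have h1b : 0 < 1 - b := by linarith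
    have hc := Real.concaveOn_negMulLog.2 (show b ∈ Set.Ici (0 : ℝ) from hb)
      (show (1 : ℝ) ∈ Set.Ici (0 : ℝ) by simp)
      (show 0 ≤ (1 - u) / (1 - b) by apply div_nonneg <;> linarith)
      (show 0 ≤ (u - b) / (1 - b) by apply div_nonneg <;> linarith)
      (show (1 - u) / (1 - b) + (u - b) / (1 - b) = 1 by field_simp; ring)
    simp only [smul_eq_mul, Real.negMulLog_one, mul_zero, add_zero, mul_one] at hc
    have e : (1 - u) / (1 - b) * b + (u - b) / (1 - b) = u := by field_simp; ring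
    rw [e] at hc
    refine le_trans ?_ hc
    apply mul_le_mul_of_nonneg_right _ hb1
    rw [le_div_iff₀ h1b]
    nlinarith

lemma ent_group {ι : Type*} (L : Finset ι) (y : ι → ℝ) {M α s : ℝ} (hM : 600 ≤ M) (hα : 0 ≤ α)
    (hs : 0 < s) (hy : ∀ i ∈ L, α ≤ y i ∧ y i ≤ s) (hsum : ∑ i ∈ L, y i ≤ 551 / 250 * s)
    (hcard : M / 4 - 3 / 50 ≤ (L.card : ℝ)) :
    M * α ≤ ∑ i ∈ L, s * Real.negMulLog (y i / s) := by
  have h1 : ∀ i ∈ L, s * ((1 - y i / s) * Real.negMulLog (α / s)) ≤
      s * Real.negMulLog (y i / s) := by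
    intro i hi
    apply mul_le_mul_of_nonneg_left _ hs.le
    apply nml (by positivity)
    · have := (hy i hi).1; gcongr
    · rw [div_le_one hs]; exact (hy i hi).2
  refine le_trans ?_ (sum_le_sum h1)
  have h2 : ∑ i ∈ L, s * ((1 - y i / s) * Real.negMulLog (α / s)) =
      (s * Real.negMulLog (α / s)) * (L.card - (∑ i ∈ L, y i) / s) := by
    rw [← mul_sum, ← sum_mul, sum_sub_distrib, sum_div]
    simp only [sum_const, nsmul_eq_mul, mul_one]
    ring
  rw [h2]
  have hcnn : α ≤ s := by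
    have : L.Nonempty := by
      rw [← card_pos]
      have : (0 : ℝ) < L.card := by linarith
      exact_mod_cast this
    obtain ⟨i, hi⟩ := this
    exact (hy i hi).1.trans (hy i hi).2
  rcases eq_or_lt_of_le hα with h0 | h0
  · rw [← h0]; simp
  have h3 : (∑ i ∈ L, y i) / s ≤ 551 / 250 := by rwa [div_le_iff₀ hs]
  have h4 : (L.card : ℝ) * α ≤ ∑ i ∈ L, y i := by
    rw [← nsmul_eq_mul]
    exact card_nsmul_le_sum _ _ _ fun i hi => (hy i hi).1
  have h5 : s * Real.negMulLog (α / s) = α * Real.log (s / α) := by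
    unfold Real.negMulLog
    rw [show α / s = (s / α)⁻¹ by rw [inv_div], Real.log_inv, inv_div]
    field_simp
  have h6 : (4158 : ℝ) / 1000 ≤ Real.log (s / α) := by
    have e1 : (4158 : ℝ) / 1000 ≤ Real.log 64 := by
      rw [show (64 : ℝ) = 2 ^ 6 by norm_num, Real.log_pow]
      have := Real.log_two_gt_d9
      push_cast
      linarith
    refine e1.trans (Real.log_le_log (by norm_num) ?_)
    rw [le_div_iff₀ h0]
    have : (M / 4 - 3 / 50) * α ≤ L.card * α := by gcongr
    nlinarith
  rw [h5]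
  have h7 : 0 ≤ (L.card : ℝ) - (∑ i ∈ L, y i) / s := by linarith
  calc M * α ≤ (α * (4158 / 1000)) * (L.card - 551 / 250) := by
        have : M ≤ 4158 / 1000 * (L.card - 551 / 250) := by linarith
        nlinarith
    _ ≤ (α * (4158 / 1000)) * (L.card - (∑ i ∈ L, y i) / s) := by gcongr
    _ ≤ (α * Real.log (s / α)) * (L.card - (∑ i ∈ L, y i) / s) := by gcongr

lemma g_zero {m c : ℕ} {g : ℝ → ℝ} (hg : Good m c g) : g 0 = 0 := by
  have := hg.small 0 (by rw [d_zero]; norm_num)
  rw [this, d_zero, G_zero]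

lemma g_sum {m c : ℕ} {g : ℝ → ℝ} (hg : Good m c g) {ι : Type*} (s : Finset ι) (x : ι → ℝ) :
    g (∑ i ∈ s, x i) ≤ ∑ i ∈ s, g (x i) := by
  classical
  induction s using Finset.induction_on with
  | empty => simp [g_zero hg]
  | insert a s ha ih =>
    rw [sum_insert ha, sum_insert ha]
    exact (hg.sub _ _).trans (by linarith)

lemma caseC {m c : ℕ} (P : Par m c) {g : ℝ → ℝ} (hg : Good m c g) (x : Fin m → ℝ) (α β : ℝ)
    (hα : 0 ≤ α) (hβ : 0 ≤ β) (hx : ∀ i, α ≤ x i ∧ x i ≤ 1 - β)
    (ht : m * (α + β) ≤ 6 / 5 * (600 / 599))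
    (hX1 : (m : ℝ) / 4 + 2 ≤ ∑ i, x i) (hX2 : ∑ i, x i ≤ 3 * (m : ℝ) / 4 - 2) :
    m * (α + β) + g (∑ i, x i) ≤ ∑ i, T m c g (x i) := by
  classical
  have h600 := P.m600
  have hm0 : (0 : ℝ) < m := by linarith
  obtain ⟨e1, e2, -, -⟩ := P.eps
  set L := univ.filter fun i => x i < 1 / 4 with hL
  set H := univ.filter fun i => 3 / 4 < x i with hH
  set M := univ.filter fun i => 1 / 4 ≤ x i ∧ x i ≤ 3 / 4 with hM
  have split : ∀ f : Fin m → ℝ, ∑ i, f i = ∑ i ∈ L, f i + ∑ i ∈ H, f i + ∑ i ∈ M, f i := by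
    intro f
    rw [hL, hH, hM, sum_filter, sum_filter, sum_filter, ← sum_add_distrib, ← sum_add_distrib]
    apply sum_congr rfl
    intro i _
    rcases lt_or_ge (x i) (1 / 4) with h1 | h1
    · rw [if_pos h1, if_neg (by linarith), if_neg (by intro h; linarith [h.1])]; ring
    · rcases lt_or_ge (3 / 4) (x i) with h2 | h2
      · rw [if_neg (by linarith), if_pos h2, if_neg (by intro h; linarith [h.2])]; ring
      · rw [if_neg (by linarith), if_neg (by linarith), if_pos ⟨h1, h2⟩]; ring
  have mL : ∀ i ∈ L, x i < 1 / 4 := fun i hi => (mem_filter.1 hi).2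
  have mH : ∀ i ∈ H, 3 / 4 < x i := fun i hi => (mem_filter.1 hi).2
  have mM : ∀ i ∈ M, 1 / 4 ≤ x i ∧ x i ≤ 3 / 4 := fun i hi => (mem_filter.1 hi).2
  have dL : ∀ i ∈ L, d (x i) = x i := fun i hi =>
    d_of_le (by linarith [(hx i).1]) (by linarith [mL i hi])
  have dH : ∀ i ∈ H, d (x i) = 1 - x i := fun i hi =>
    d_of_ge (by linarith [mH i hi]) (by linarith [(hx i).2])
  have dM : ∀ i ∈ M, 1 / 4 ≤ d (x i) := by
    intro i hi
    obtain ⟨h1, h2⟩ := mM i hi
    rcases le_total (x i) (1 / 2) with h | h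
    · rw [d_of_le (by linarith) h]; exact h1
    · rw [d_of_ge h (by linarith)]; linarith
  have TL : ∑ i ∈ L, T m c g (x i) = ∑ i ∈ L, G (x i) := by
    apply sum_congr rfl
    intro i hi
    rw [T_small (by rw [dL i hi]; exact mL i hi), dL i hi]
  have TH : ∑ i ∈ H, T m c g (x i) = ∑ i ∈ H, G (1 - x i) := by
    apply sum_congr rfl
    intro i hi
    rw [T_small (by rw [dH i hi]; linarith [mH i hi]), dH i hi]
  have TM1 : (M.card : ℝ) ≤ ∑ i ∈ M, T m c g (x i) := by
    have := card_nsmul_le_sum M (fun i => T m c g (x i)) 1 fun i hi => T_one (dM i hi)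
    simpa using this
  have TMg : ∑ i ∈ M, g (x i) ≤ ∑ i ∈ M, T m c g (x i) := sum_le_sum fun i _ => hg.mono _
  set SL := ∑ i ∈ L, x i with hSL
  set SH := ∑ i ∈ H, (1 - x i) with hSH
  set WL := ∑ i ∈ L, G (x i) with hWL
  set WH := ∑ i ∈ H, G (1 - x i) with hWH
  have WL4 : 4 * SL ≤ WL := by
    rw [hSL, hWL, mul_sum]
    exact sum_le_sum fun i hi => G_four (by linarith [(hx i).1]) (mL i hi).le
  have WH4 : 4 * SH ≤ WH := by
    rw [hSH, hWH, mul_sum]
    exact sum_le_sum fun i hi => G_four (by linarith [(hx i).2]) (by linarith [mH i hi])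
  have SL0 : 0 ≤ SL := sum_nonneg fun i hi => by linarith [(hx i).1]
  have SH0 : 0 ≤ SH := sum_nonneg fun i hi => by linarith [(hx i).2]
  rw [split (fun i => T m c g (x i)), TL, TH]
  have hgup := hg.up (∑ i, x i)
  rcases le_total (m * (α + β) + (1 + 1 / ((m : ℝ) - 1))) (M.card + (WL + WH)) with hbig | hbig
  · linarith
  -- now everything is small
  have hM3 : (M.card : ℝ) ≤ 2 := by
    have : (M.card : ℝ) < 3 := by linarith
    have : M.card < 3 := by exact_mod_cast this
    have : M.card ≤ 2 := by omega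
    exact_mod_cast this
  have hM0 : (0 : ℝ) ≤ M.card := by positivity
  have hS : SL + SH ≤ 551 / 1000 := by linarith
  -- the numbers of small and large points
  have hc : (m : ℝ) = L.card + H.card + M.card := by
    have := split (fun _ => (1 : ℝ))
    simpa using this
  have hsx := split x
  have hHx : ∑ i ∈ H, x i = H.card - SH := by
    rw [hSH, sum_sub_distrib]; simp
  have hMu : ∑ i ∈ M, x i ≤ 3 / 4 * M.card := by
    have := sum_le_card_nsmul M x (3 / 4) fun i hi => (mM i hi).2
    simpa [mul_comm] using this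
  have hMl : 1 / 4 * M.card ≤ ∑ i ∈ M, x i := by
    have := card_nsmul_le_sum M x (1 / 4) fun i hi => (mM i hi).1
    simpa [mul_comm] using this
  rw [← hSL, hHx] at hsx
  have hq : (m : ℝ) / 4 - 3 / 50 ≤ H.card := by linarith
  have hp : (m : ℝ) / 4 - 3 / 50 ≤ L.card := by linarith
  -- reduction to the sum over `L` and `H`
  set σ := ∑ i ∈ L, x i + ∑ i ∈ H, x i with hσ
  have hgs : g (∑ i, x i) ≤ g σ + ∑ i ∈ M, T m c g (x i) := by
    rw [split x, ← hσ]
    exact (hg.sub _ _).trans (by linarith [g_sum hg M x])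
  suffices hsuff : m * (α + β) + g σ ≤ WL + WH by linarith
  have hdσ : d σ ≤ SL + SH := by
    rw [hσ]
    refine (d_add _ _).trans (add_le_add ?_ ?_)
    · exact (d_sum _ _).trans (sum_le_sum fun i hi => (dL i hi).le)
    · exact (d_sum _ _).trans (sum_le_sum fun i hi => (dH i hi).le)
  rcases eq_or_lt_of_le (add_nonneg SL0 SH0) with h0 | h0
  · -- `S = 0`
    have hd0 : d σ = 0 := le_antisymm (by linarith) (d_nonneg _)
    have hgσ : g σ = 0 := by
      rw [hg.small σ (by rw [hd0]; norm_num), hd0, G_zero]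
    have hLne : L.Nonempty := by
      rw [← card_pos]
      have : (0 : ℝ) < L.card := by linarith
      exact_mod_cast this
    have hHne : H.Nonempty := by
      rw [← card_pos]
      have : (0 : ℝ) < H.card := by linarith
      exact_mod_cast this
    obtain ⟨i, hi⟩ := hLne
    obtain ⟨j, hj⟩ := hHne
    have h1 : x i ≤ SL := single_le_sum (f := x) (fun k _ => by linarith [(hx k).1]) hi
    have h2 : 1 - x j ≤ SH :=
      single_le_sum (f := fun k => 1 - x k) (fun k _ => by linarith [(hx k).2]) hj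
    have h3 : α = 0 := le_antisymm (by linarith [(hx i).1]) hα
    have h4 : β = 0 := le_antisymm (by linarith [(hx j).2]) hβ
    rw [hgσ, h3, h4]
    linarith
  obtain ⟨s, hs⟩ : ∃ s, s = min (SL + SH) (1 / 4) := ⟨_, rfl⟩
  have hs0 : 0 < s := by rw [hs]; exact lt_min h0 (by norm_num)
  have hs4 : s ≤ 1 / 4 := by rw [hs]; exact min_le_right _ _
  have hsS : s ≤ SL + SH := by rw [hs]; exact min_le_left _ _
  have hSs : SL + SH ≤ 551 / 250 * s := by
    rw [hs]
    rcases le_total (SL + SH) (1 / 4) with h | h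
    · rw [min_eq_left h]; linarith
    · rw [min_eq_right h]; linarith
  have hyL : ∀ i ∈ L, α ≤ x i ∧ x i ≤ s := by
    intro i hi
    refine ⟨(hx i).1, ?_⟩
    rw [hs]
    refine le_min ?_ (mL i hi).le
    have h1 : x i ≤ SL := single_le_sum (f := x) (fun k _ => by linarith [(hx k).1]) hi
    linarith
  have hyH : ∀ i ∈ H, β ≤ 1 - x i ∧ 1 - x i ≤ s := by
    intro i hi
    refine ⟨by linarith [(hx i).2], ?_⟩
    rw [hs]
    refine le_min ?_ (by linarith [mH i hi])
    have h1 : 1 - x i ≤ SH :=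
      single_le_sum (f := fun k => 1 - x k) (fun k _ => by linarith [(hx k).2]) hi
    linarith
  have EL := ent_group L x h600 hα hs0 hyL (by linarith) hp
  have EH := ent_group H (fun i => 1 - x i) h600 hβ hs0 hyH (by linarith) hq
  have GL : SL / s * G s + ∑ i ∈ L, s * Real.negMulLog (x i / s) ≤ WL := by
    rw [hSL, sum_div, sum_mul, ← sum_add_distrib, hWL]
    exact sum_le_sum fun i hi =>
      G_ent (hα.trans (hyL i hi).1) (hyL i hi).2 hs0 (by linarith)
  have GH : SH / s * G s + ∑ i ∈ H, s * Real.negMulLog ((1 - x i) / s) ≤ WH := by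
    rw [hSH, sum_div, sum_mul, ← sum_add_distrib, hWH]
    exact sum_le_sum fun i hi =>
      G_ent (hβ.trans (hyH i hi).1) (hyH i hi).2 hs0 (by linarith)
  have hfin : g σ ≤ SL / s * G s + SH / s * G s := by
    rw [← add_mul, ← add_div]
    rcases lt_or_ge (d σ) (1 / 4) with h1 | h1
    · rw [hg.small σ h1]
      rcases le_total (SL + SH) (1 / 4) with h | h
      · have es : s = SL + SH := by rw [hs, min_eq_left h]
        rw [← es, div_self hs0.ne', one_mul]
        exact G_mono (d_nonneg _) (by linarith) (by linarith)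
      · have es : s = 1 / 4 := by rw [hs, min_eq_right h]
        rw [es, G_one_mid (x := 1 / 4) le_rfl (by norm_num)]
        have := G_le_one (d_nonneg σ) (by linarith)
        rw [mul_one, le_div_iff₀ (by norm_num)]
        linarith
    · have es : s = 1 / 4 := by rw [hs, min_eq_right (by linarith)]
      rw [es, G_one_mid (x := 1 / 4) le_rfl (by norm_num)]
      have := hg.up2 σ h1
      rw [mul_one, le_div_iff₀ (by norm_num)]
      linarith
  linarith

end Pool.Agent.H27.FM
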