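import Pool.Agent.H27.FM.Top
import Pool.Agent.H27.FM.Exact

/-!
# The exact middle recursion along orbits
-/

set_option autoImplicit false

namespace Pool.Agent.H27.FM

open Finset Pool.Agent.H14RC

lemma fract_mul_fract (m : ℕ) (x : ℝ) :
    Int.fract ((m : ℝ) * Int.fract x) = Int.fract ((m : ℝ) * x) := by
  have e : (m : ℝ) * x = m * Int.fract x + ((m * ⌊x⌋ : ℤ) : ℝ) := by
    have := Int.fract_add_floor x
    push_cast
    rw [← mul_add, this]
  rw [e, Int.fract_add_intCast]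

lemma exact_frac {m : ℕ} (hm6 : 1000000 ≤ m) (n : ℕ) : ∀ x : ℝ,
    (∀ i < n, Mid m (Int.fract ((m : ℝ) ^ i * x))) →
    F m (Int.fract x) =
      ∑ i ∈ range n, (1 / (m : ℝ)) ^ i + (1 / (m : ℝ)) ^ n * F m (Int.fract ((m : ℝ) ^ n * x)) := by
  have hm : 600 ≤ m := by omega
  have hm0 : (0 : ℝ) < m := by have := (par hm).m600; linarith
  induction n with
  | zero => intro x _; simp
  | succ n ih =>
    intro x hx
    have h0 := hx 0 (by omega)
    rw [pow_zero, one_mul] at h0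
    have h1 := exact_mid (par hm) hm6 h0.1 h0.2
    rw [fract_mul_fract] at h1
    have h2 := ih (m * x) fun i hi => by
      have := hx (i + 1) (by omega)
      rwa [pow_succ, mul_assoc] at this
    rw [h1, h2, sum_range_succ']
    have e1 : ∑ i ∈ range n, (1 / (m : ℝ)) ^ (i + 1) = (∑ i ∈ range n, (1 / (m : ℝ)) ^ i) / m := by
      rw [sum_div]
      apply sum_congr rfl
      intro i _
      rw [pow_succ]; ring
    have e2 : (1 / (m : ℝ)) ^ (n + 1) * F m (Int.fract ((m : ℝ) ^ (n + 1) * x)) =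
        ((1 / (m : ℝ)) ^ n * F m (Int.fract ((m : ℝ) ^ n * (m * x)))) / m := by
      rw [pow_succ (m : ℝ) n, mul_assoc, pow_succ (1 / (m : ℝ)) n]; ring
    rw [e1, e2, pow_zero]
    ring

lemma exact_orbit {m : ℕ} (hm6 : 1000000 ≤ m) (n : ℕ) {x : ℝ} (h0 : 0 ≤ x) (h1 : x ≤ 1)
    (hx : ∀ i < n, Mid m (Int.fract ((m : ℝ) ^ i * x))) :
    F m x =
      ∑ i ∈ range n, (1 / (m : ℝ)) ^ i + (1 / (m : ℝ)) ^ n * F m (Int.fract ((m : ℝ) ^ n * x)) := by
  have := exact_frac hm6 n x hx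
  rwa [F_fract (by omega) h0 h1] at this

end Pool.Agent.H27.FM
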