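import Pool.Agent.H27.FM.CaseA
import Pool.Agent.H27.FM.CaseB
import Pool.Agent.H27.FM.CaseC

/-!
# The middle recursion for the maximal function
-/

set_option autoImplicit false

namespace Pool.Agent.H27.FM

open Finset Pool.Agent.H14RC

lemma T_rc {m c : ℕ} (P : Par m c) {g : ℝ → ℝ} (hg : Good m c g) : RC m (T m c g) := by
  intro u A B hA hB hu
  have h600 := P.m600
  have hm0 : (0 : ℝ) < m := by linarith
  obtain ⟨e1, e2, e3, e4⟩ := P.eps
  set X : ℝ := (∑ i, u i) / m with hX
  have hsum : ∑ i, u i = m * X := by rw [hX]; field_simp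
  have hAX : A ≤ X := by
    rw [hX, le_div_iff₀ hm0]
    calc A * m = ∑ _i : Fin m, A := by simp [mul_comm]
      _ ≤ ∑ i, u i := sum_le_sum fun i _ => (hu i).1
  have hXB : X ≤ B := by
    rw [hX, div_le_iff₀ hm0]
    calc ∑ i, u i ≤ ∑ _i : Fin m, B := sum_le_sum fun i _ => (hu i).2
      _ = B * m := by simp [mul_comm]
  have hbase : G (d X) ≤ (∑ i, T m c g (u i)) / m + (B - A) := by
    refine ((g0_good P).rc u A B hA hB hu).trans ?_
    have : ∑ i, g0 (u i) ≤ ∑ i, T m c g (u i) := sum_le_sum fun i _ => T_lo _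
    gcongr
  rcases lt_or_ge (d X) (1 / 4) with hd | hd
  · rw [T_small hd]; exact hbase
  rw [T_big hd]
  rw [G_one_mid hd (by linarith [d_le_half X])] at hbase
  apply max_le hbase
  rcases le_or_gt (1 - kap m c X + g (m * X) / m) 1 with hs | hs
  · exact hs.trans hbase
  -- `X` is well inside
  have h2up := second_up P hg X
  have hk : kap m c X < 1 / ((m : ℝ) - 1) := by linarith
  have hk2 : (c : ℝ) / m - d X ≤ 2 * kap m c X := by
    unfold kap
    have := le_max_right 0 ((c : ℝ) / m - d X)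
    linarith
  have hcm : 1 / 4 + 17 / 4 * (1 / m) ≤ (c : ℝ) / m := by
    rw [le_div_iff₀ (by linarith)]
    have e : (1 / 4 + 17 / 4 * (1 / (m : ℝ))) * m = m / 4 + 17 / 4 := by field_simp
    rw [e]; exact P.c1
  have hdX : 1 / 4 + 2 * (1 / ((m : ℝ) - 1)) ≤ d X := by
    have : 0 < 1 / (m : ℝ) := by positivity
    linarith
  have hX1 : 1 / 4 + 2 * (1 / ((m : ℝ) - 1)) ≤ X := by
    have := d_le X 0
    simp only [Int.cast_zero, sub_zero] at this
    rw [abs_of_nonneg (by linarith)] at this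
    linarith
  have hX2 : X ≤ 3 / 4 - 2 * (1 / ((m : ℝ) - 1)) := by
    have := d_le X 1
    simp only [Int.cast_one] at this
    rw [abs_of_nonpos (by linarith)] at this
    linarith
  by_cases hcase : 1 / 4 ≤ A ∧ B ≤ 3 / 4
  · exact caseA P hg u A B hcase.1 hcase.2 hu
  have hcase' : A < 1 / 4 ∨ 1 - B < 1 / 4 := by
    by_contra hcon
    push Not at hcon
    exact hcase ⟨hcon.1, by linarith [hcon.2]⟩
  have hAB : 0 < B - A := by
    rcases hcase' with h | h <;> linarith
  rcases le_total (6 / 5 * (1 / ((m : ℝ) - 1))) (A + (1 - B)) with ht | ht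
  · -- case B
    have hB' := caseB hA (by linarith : (0 : ℝ) ≤ 1 - B) hAX (by linarith) hX1 hX2 e1 e2 ht hcase'
    rw [G_symm B] at hB'
    have hch : ∀ i, (B - u i) * G A + (u i - A) * G B ≤ (B - A) * G (d (u i)) := by
      intro i
      rw [G_d (hA.trans (hu i).1) ((hu i).2.trans hB)]
      exact G_conc3 hA (hu i).1 (hu i).2 hB
    have hch2 := sum_le_sum fun i (_ : i ∈ univ) => hch i
    rw [sum_add_distrib, ← sum_mul, ← sum_mul, ← mul_sum, sum_sub_distrib, sum_sub_distrib,
      hsum] at hch2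
    simp only [sum_const, card_univ, Fintype.card_fin, nsmul_eq_mul] at hch2
    have hTs : ∑ i, G (d (u i)) ≤ ∑ i, T m c g (u i) := sum_le_sum fun i _ => T_lo _
    have h1 : m * ((B - A) * (A + (1 - B) + 1 / ((m : ℝ) - 1))) ≤
        (B - A) * ∑ i, T m c g (u i) := by
      have h3 : (B - A) * (A + (1 - B) + 1 / ((m : ℝ) - 1)) ≤
          (1 - (1 - B) - X) * G A + (X - A) * G B := by
        refine le_trans (le_of_eq ?_) hB'
        ring
      have h4 : (m : ℝ) * ((B - A) * (A + (1 - B) + 1 / ((m : ℝ) - 1))) ≤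
          m * ((1 - (1 - B) - X) * G A + (X - A) * G B) := by gcongr
      have h5 : (B - A) * ∑ i, G (d (u i)) ≤ (B - A) * ∑ i, T m c g (u i) := by gcongr
      have h6 : (m : ℝ) * ((1 - (1 - B) - X) * G A + (X - A) * G B) =
          (m * B - m * X) * G A + (m * X - m * A) * G B := by ring
      linarith
    have h2 : m * (A + (1 - B) + 1 / ((m : ℝ) - 1)) ≤ ∑ i, T m c g (u i) := by
      have : (B - A) * (m * (A + (1 - B) + 1 / ((m : ℝ) - 1))) ≤
          (B - A) * ∑ i, T m c g (u i) := by linarith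
      exact le_of_mul_le_mul_left this hAB
    have h3 : A + (1 - B) + 1 / ((m : ℝ) - 1) ≤ (∑ i, T m c g (u i)) / m := by
      rw [le_div_iff₀ hm0]; linarith
    have := kap_nonneg m c X
    linarith
  · -- case C
    have hmε : (m : ℝ) * (1 / ((m : ℝ) - 1)) = 1 + 1 / ((m : ℝ) - 1) := by
      have : (0 : ℝ) < (m : ℝ) - 1 := by linarith
      field_simp
      ring
    have ht' : (m : ℝ) * (A + (1 - B)) ≤ 6 / 5 * (600 / 599) := by
      have : (m : ℝ) * (A + (1 - B)) ≤ m * (6 / 5 * (1 / ((m : ℝ) - 1))) := by gcongr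
      linarith
    have hC := caseC P hg u A (1 - B) hA (by linarith)
      (fun i => ⟨(hu i).1, by linarith [(hu i).2]⟩) ht'
      (by
        rw [hsum]
        have : (m : ℝ) * (1 / 4 + 2 * (1 / ((m : ℝ) - 1))) ≤ m * X := by gcongr
        linarith)
      (by
        rw [hsum]
        have : (m : ℝ) * X ≤ m * (3 / 4 - 2 * (1 / ((m : ℝ) - 1))) := by gcongr
        linarith)
    rw [hsum] at hC
    have hk0 := kap_nonneg m c X
    have goal : (m : ℝ) * 1 + g (m * X) ≤ (∑ i, T m c g (u i)) + m * (B - A) := by linarith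
    have e : 1 + g (m * X) / m = ((m : ℝ) * 1 + g (m * X)) / m := by field_simp
    have e' : (∑ i, T m c g (u i)) / m + (B - A) =
        ((∑ i, T m c g (u i)) + m * (B - A)) / m := by field_simp
    have : 1 + g (m * X) / m ≤ (∑ i, T m c g (u i)) / m + (B - A) := by
      rw [e, e']; gcongr
    linarith

/-- The iterates. -/
noncomputable def gs (m c : ℕ) : ℕ → ℝ → ℝ
  | 0 => g0
  | n + 1 => T m c (gs m c n)

lemma gs_good {m c : ℕ} (P : Par m c) (n : ℕ) : Good m c (gs m c n) := by
  induction n with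
  | zero => exact g0_good P
  | succ n ih => exact T_good P ih (T_rc P ih)

lemma gs_inClass {m c : ℕ} (P : Par m c) (n : ℕ) : InClass m (gs m c n) := by
  have hg := gs_good P n
  have h0 := g_zero hg
  refine ⟨h0.le, ?_, ⟨1 + 1 / ((m : ℝ) - 1), fun x _ _ => hg.up x⟩,
    relaxed_of_rc (by have := P.hm; omega) hg.rc⟩
  have := hg.per 0 1
  simp only [Int.cast_one, zero_add] at this
  rw [this, h0]

lemma gs_low {m c : ℕ} (P : Par m c) (n : ℕ) : ∀ x : ℝ,
    (∀ i < n, (c : ℝ) / m ≤ d (m ^ i * x)) →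
    ∑ i ∈ range n, (1 / (m : ℝ)) ^ i + (1 / (m : ℝ)) ^ n * G (d (m ^ n * x)) ≤ gs m c n x := by
  have h600 := P.m600
  have hm0 : (0 : ℝ) < m := by linarith
  induction n with
  | zero =>
    intro x _
    simp [gs, g0]
  | succ n ih =>
    intro x hx
    have h0 := hx 0 (by omega)
    rw [pow_zero, one_mul] at h0
    have hcm : 1 / 4 ≤ (c : ℝ) / m := by
      rw [le_div_iff₀ hm0]; linarith [P.c1]
    have hk : kap m c x = 0 := by
      unfold kap
      rw [max_eq_left (by linarith)]; norm_num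
    have h1 := ih (m * x) (by
      intro i hi
      have := hx (i + 1) (by omega)
      rwa [pow_succ, mul_assoc] at this)
    have h2 := T_second (m := m) (c := c) (g := gs m c n) (x := x) (by linarith)
    rw [hk] at h2
    change _ ≤ T m c (gs m c n) x
    refine le_trans ?_ h2
    rw [sum_range_succ']
    have e1 : ∑ i ∈ range n, (1 / (m : ℝ)) ^ (i + 1) = (∑ i ∈ range n, (1 / (m : ℝ)) ^ i) / m := by
      rw [sum_div]
      apply sum_congr rfl
      intro i _
      rw [pow_succ]; ring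
    have e2 : (1 / (m : ℝ)) ^ (n + 1) * G (d (m ^ (n + 1) * x)) =
        ((1 / (m : ℝ)) ^ n * G (d (m ^ n * (m * x)))) / m := by
      rw [pow_succ (m : ℝ) n, mul_assoc, pow_succ (1 / (m : ℝ)) n]; ring
    rw [e1, e2, pow_zero]
    have h3 : (∑ i ∈ range n, (1 / (m : ℝ)) ^ i + (1 / (m : ℝ)) ^ n * G (d (m ^ n * (m * x)))) / m ≤
        gs m c n (m * x) / m := by gcongr
    rw [add_div] at h3
    linarith

end Pool.Agent.H27.FM
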