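import Pool.Agent.H27.FM.Basic

/-!
# The periodic form of relaxed convexity, with slack
-/

set_option autoImplicit false

namespace Pool.Agent.H27.FM

open Finset Pool.Agent.H14RC

/-- Unsorted form of relaxed convexity. -/
def RC (m : ℕ) (g : ℝ → ℝ) : Prop :=
  ∀ (u : Fin m → ℝ) (A B : ℝ), 0 ≤ A → B ≤ 1 → (∀ i, A ≤ u i ∧ u i ≤ B) →
    g ((∑ i, u i) / m) ≤ (∑ i, g (u i)) / m + (B - A)

lemma rc_of_relaxed {m : ℕ} (hm : 1 ≤ m) {f : ℝ → ℝ} (h : RelaxedConvex m f) : RC m f := by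
  intro u A B hA hB hu
  have hmono : Monotone (u ∘ Tuple.sort u) := Tuple.monotone_sort u
  obtain ⟨x, hx⟩ : ∃ x : ℕ → ℝ, ∀ (i : ℕ) (hi : i < m), x i = u (Tuple.sort u ⟨i, hi⟩) :=
    ⟨fun i => if h : i < m then u (Tuple.sort u ⟨i, h⟩) else 0, fun i hi => dif_pos hi⟩
  have hsum : ∀ φ : ℝ → ℝ, ∑ i ∈ range m, φ (x i) = ∑ i, φ (u i) := by
    intro φ
    rw [← Fin.sum_univ_eq_sum_range (fun i : ℕ => φ (x i)) m, ← Equiv.sum_comp (Tuple.sort u) fun i => φ (u i)]
    exact sum_congr rfl fun i _ => by rw [hx i i.2]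
  have key := h x (fun i hi => by
    rw [hx i hi]
    have h1 := hu (Tuple.sort u ⟨i, hi⟩)
    exact ⟨hA.trans h1.1, h1.2.trans hB⟩) fun i j hij hj => by
    rw [hx i (lt_of_le_of_lt hij hj), hx j hj]
    exact hmono (show (⟨i, lt_of_le_of_lt hij hj⟩ : Fin m) ≤ ⟨j, hj⟩ from hij)
  rw [hsum fun y => y, hsum f, hx (m - 1) (by omega), hx 0 (by omega)] at key
  have h1 := (hu (Tuple.sort u ⟨m - 1, by omega⟩)).2
  have h2 := (hu (Tuple.sort u ⟨0, by omega⟩)).1
  linarith

lemma relaxed_of_rc {m : ℕ} (hm : 1 ≤ m) {f : ℝ → ℝ} (h : RC m f) : RelaxedConvex m f := by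
  intro x hx hmono
  have key := h (fun i : Fin m => x i) (x 0) (x (m - 1)) (hx 0 (by omega)).1 (hx (m - 1) (by omega)).2
    fun i => ⟨hmono 0 i (Nat.zero_le _) i.2, hmono i (m - 1) (by have := i.2; omega) (by omega)⟩
  rw [Fin.sum_univ_eq_sum_range (fun i : ℕ => x i) m, Fin.sum_univ_eq_sum_range (fun i : ℕ => f (x i)) m] at key
  exact key

private lemma sum_two {m : ℕ} (w : Fin m → ℝ) {i k : Fin m} (h : k ≠ i) : ∑ j, w j = w i + w k + ∑ j ∈ (univ.erase i).erase k, w j := by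
  rw [← add_sum_erase univ w (mem_univ i), ← add_sum_erase (univ.erase i) w (mem_erase.2 ⟨h, mem_univ k⟩)]
  ring

lemma cancel_up {m : ℕ} (g : ℝ → ℝ) (b : ℝ) (hb : ∀ x y, g (x + y - b) ≤ g x + g y)
    (gb : g b ≤ 0) (u : Fin m → ℝ) (hs : ∑ i, u i ≤ m * b) :
    ∃ v : Fin m → ℝ, ∑ i, v i = ∑ i, u i ∧ ∑ i, g (v i) ≤ ∑ i, g (u i) ∧ (∀ i, v i ≤ b) ∧
      (∀ L, (∀ i, L ≤ u i) → ∀ i, L ≤ v i) ∧ (∀ U, (∀ i, u i ≤ U) → ∀ i, v i ≤ U) := by
  suffices H : ∀ (n : ℕ) (u : Fin m → ℝ), (univ.filter fun i => u i ≠ b).card ≤ n → ∑ i, u i ≤ m * b →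
      ∃ v : Fin m → ℝ, ∑ i, v i = ∑ i, u i ∧ ∑ i, g (v i) ≤ ∑ i, g (u i) ∧ (∀ i, v i ≤ b) ∧
        (∀ L, (∀ i, L ≤ u i) → ∀ i, L ≤ v i) ∧ (∀ U, (∀ i, u i ≤ U) → ∀ i, v i ≤ U) from H _ u le_rfl hs
  clear hs u
  intro n
  induction n with
  | zero =>
    intro u hu hs
    have h1 : ∀ i, u i = b := by
      intro i
      by_contra hi
      have h2 : i ∈ univ.filter fun i => u i ≠ b := mem_filter.2 ⟨mem_univ _, hi⟩
      rw [card_eq_zero.1 (Nat.le_zero.1 hu)] at h2
      exact absurd h2 (notMem_empty _)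
    exact ⟨u, rfl, le_rfl, fun i => (h1 i).le, fun L hL => hL, fun U hU => hU⟩
  | succ n ih =>
    intro u hu hs
    by_cases hall : ∀ i, u i ≤ b
    · exact ⟨u, rfl, le_rfl, hall, fun L hL => hL, fun U hU => hU⟩
    push Not at hall
    obtain ⟨i, hi⟩ := hall
    obtain ⟨k, hk⟩ : ∃ k, u k < b := by
      by_contra hcon
      push Not at hcon
      have h1 : ∑ _j : Fin m, b < ∑ j, u j := sum_lt_sum (fun j _ => hcon j) ⟨i, mem_univ i, hi⟩
      rw [sum_const, card_univ, Fintype.card_fin, nsmul_eq_mul] at h1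
      linarith
    have hki : k ≠ i := by
      rintro rfl
      linarith
    obtain ⟨w, hw⟩ : ∃ w : Fin m → ℝ, w = Function.update (Function.update u i b) k (u i + u k - b) := ⟨_, rfl⟩
    have wk : w k = u i + u k - b := by rw [hw, Function.update_self]
    have wi : w i = b := by rw [hw, Function.update_of_ne hki.symm, Function.update_self]
    have wj : ∀ j, j ≠ i → j ≠ k → w j = u j := fun j h1 h2 => by
      rw [hw, Function.update_of_ne h2, Function.update_of_ne h1]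
    have wS : ∀ φ : ℝ → ℝ, ∑ j ∈ (univ.erase i).erase k, φ (w j) = ∑ j ∈ (univ.erase i).erase k, φ (u j) := by
      intro φ
      refine sum_congr rfl fun j hj => ?_
      rw [mem_erase, mem_erase] at hj
      rw [wj j hj.2.1 hj.1]
    have e1 : ∑ j, w j = ∑ j, u j := by
      rw [sum_two w hki, sum_two u hki, wi, wk, wS fun y => y]
      ring
    have e2 : ∑ j, g (w j) ≤ ∑ j, g (u j) := by
      rw [sum_two (fun j => g (w j)) hki, sum_two (fun j => g (u j)) hki, wS g]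
      simp only [wi, wk]
      have := hb (u i) (u k)
      linarith
    have hcard : (univ.filter fun j => w j ≠ b).card ≤ n := by
      have hss : (univ.filter fun j => w j ≠ b) ⊂ univ.filter fun j => u j ≠ b := by
        rw [ssubset_iff_of_subset]
        · exact ⟨i, mem_filter.2 ⟨mem_univ _, hi.ne'⟩, fun hc => (mem_filter.1 hc).2 wi⟩
        · intro j hj
          rw [mem_filter] at hj ⊢
          refine ⟨mem_univ _, ?_⟩
          by_cases h1 : j = i
          · exact absurd (h1 ▸ wi) hj.2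
          by_cases h2 : j = k
          · rw [h2]
            exact hk.ne
          rw [← wj j h1 h2]
          exact hj.2
      have := card_lt_card hss
      omega
    obtain ⟨v, hv1, hv2, hv3, hv4, hv5⟩ := ih w hcard (by rw [e1]; exact hs)
    refine ⟨v, hv1.trans e1, hv2.trans e2, hv3, fun L hL => hv4 L fun j => ?_, fun U hU => hv5 U fun j => ?_⟩
    · by_cases h1 : j = i
      · rw [h1, wi]
        exact (hL k).trans hk.le
      by_cases h2 : j = k
      · rw [h2, wk]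
        linarith [hL k]
      rw [wj j h1 h2]
      exact hL j
    · by_cases h1 : j = i
      · rw [h1, wi]
        exact hi.le.trans (hU i)
      by_cases h2 : j = k
      · rw [h2, wk]
        linarith [hU i]
      rw [wj j h1 h2]
      exact hU j

lemma slack {m : ℕ} (hm : 1 ≤ m) (g : ℝ → ℝ) (hper : ∀ x (n : ℤ), g (x + n) = g x)
    (hsub : ∀ x y, g (x + y) ≤ g x + g y) (g0 : g 0 = 0) (rc : RC m g)
    (u : Fin m → ℝ) (A B : ℝ) (hu : ∀ i, A ≤ u i ∧ u i ≤ B) (l : ℤ)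
    (h1 : (l : ℝ) ≤ (∑ i, u i) / m) (h2 : (∑ i, u i) / m ≤ (l : ℝ) + 1) :
    g ((∑ i, u i) / m) ≤ (∑ i, g (u i)) / m + (min B ((l : ℝ) + 1) - max A (l : ℝ)) := by
  have hm0 : (0 : ℝ) < m := by exact_mod_cast hm
  have gint : ∀ n : ℤ, g n = 0 := by
    intro n
    have h := hper 0 n
    rw [zero_add, g0] at h
    exact h
  obtain ⟨v, hv1, hv2, hv3, hv4, hv5⟩ := cancel_up g ((l : ℝ) + 1) (fun x y => by
    have h := hper (x + y) (-(l + 1))
    push_cast at h
    rw [← sub_eq_add_neg] at h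
    rw [h]
    exact hsub x y) (by
    have h := gint (l + 1)
    push_cast at h
    exact h.le) u (by
    rw [div_le_iff₀ hm0] at h2
    linarith)
  obtain ⟨w, hw1, hw2, hw3, hw4, hw5⟩ := cancel_up (fun x => g (-x)) (-(l : ℝ)) (fun x y => by
    have h := hper (-x + -y) (-l)
    push_cast at h
    rw [show -x + -y + -(l : ℝ) = -(x + y - -(l : ℝ)) by ring] at h
    show g (-(x + y - -(l : ℝ))) ≤ g (-x) + g (-y)
    rw [h]
    exact hsub _ _) (by
    show g (-(-(l : ℝ))) ≤ 0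
    rw [neg_neg]
    exact (gint l).le) (fun i => -v i) (by
    rw [le_div_iff₀ hm0] at h1
    rw [sum_neg_distrib, hv1]
    linarith)
  simp only [neg_neg, sum_neg_distrib] at hw1 hw2
  -- the points `- w i - l` lie in `[0, 1]`
  have hA : ∀ i, A ≤ -w i := fun i => by
    have := hw5 (-A) (fun j => neg_le_neg (hv4 A (fun j => (hu j).1) j)) i
    linarith
  have hB : ∀ i, -w i ≤ B := fun i => by
    have := hw4 (-B) (fun j => neg_le_neg (hv5 B (fun j => (hu j).2) j)) i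
    linarith
  have hl : ∀ i, (l : ℝ) ≤ -w i := fun i => by
    have := hw3 i
    linarith
  have hl1 : ∀ i, -w i ≤ (l : ℝ) + 1 := fun i => by
    have := hw4 (-((l : ℝ) + 1)) (fun j => neg_le_neg (hv3 j)) i
    linarith
  have key := rc (fun i => -w i - l) (max A (l : ℝ) - l) (min B ((l : ℝ) + 1) - l) (by linarith [le_max_right A (l : ℝ)])
    (by linarith [min_le_right B ((l : ℝ) + 1)])
    fun i => ⟨sub_le_sub_right (max_le (hA i) (hl i)) _, sub_le_sub_right (le_min (hB i) (hl1 i)) _⟩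
  have gl : ∀ x : ℝ, g (x - l) = g x := fun x => by
    have h := hper x (-l)
    push_cast at h
    rw [← sub_eq_add_neg] at h
    exact h
  have e3 : (∑ i : Fin m, (-w i - (l : ℝ))) / m = (∑ i, u i) / m - l := by
    rw [sum_sub_distrib, sum_neg_distrib, hw1, neg_neg, hv1, sum_const, card_univ, Fintype.card_fin, nsmul_eq_mul, sub_div, mul_div_cancel_left₀ _ hm0.ne']
  rw [e3, gl] at key
  simp only [gl] at key
  have e4 : (∑ i, g (-w i)) / m ≤ (∑ i, g (u i)) / m := div_le_div_of_nonneg_right (hw2.trans hv2) hm0.le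
  linarith

end Pool.Agent.H27.FM
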